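import Mathlib
import Pool.Agent.Q141.UF.Final

set_option autoImplicit false

/-!
# MP_71be06_co, Q1: unimodality of `F_λ` for near-rectangular `λ` with `b ≥ 5` parts

A partition with exactly `b` parts is an antitone function `lam : Fin b → ℕ` with positive values;
`lam 0` is the largest and `lam (b-1)` the smallest part. The theorem is stated for all partitions
with `b` parts; the partitions with pairwise distinct parts (strictly antitone `lam`) are a
special case.
-/

namespace Pool.Agent.Results.MP_71be06_co.NearRectangular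

open Finset

/-- `mu` (a partition with at most `b` parts, padded by zeros) is contained in `lam`, and its
nonzero parts are pairwise distinct. -/
def DistinctSub {b : ℕ} (lam mu : Fin b → ℕ) : Prop :=
  Antitone mu ∧ (∀ i, mu i ≤ lam i) ∧ ∀ i j, mu i = mu j → mu i ≠ 0 → i = j

/-- The coefficient of `q^m` in `F_lam(q)`: the number of partitions `mu ⊆ lam` of size `m` with
pairwise distinct nonzero parts. -/
noncomputable def coeffF {b : ℕ} (lam : Fin b → ℕ) (m : ℕ) : ℕ :=
  {mu : Fin b → ℕ | DistinctSub lam mu ∧ ∑ i, mu i = m}.ncard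

/-- The sequence `a 0, a 1, ..., a M` is unimodal. -/
def Unimodal (a : ℕ → ℕ) (M : ℕ) : Prop :=
  ∃ t ≤ M, (∀ m < t, a m ≤ a (m + 1)) ∧ ∀ m, t ≤ m → m < M → a (m + 1) ≤ a m

/-- **Q1.** For every `b ≥ 5` there are `ε > 0` and `N` such that `F_lam` is unimodal for every
partition `lam` with exactly `b` parts, largest part at least `N` and smallest part larger than
`(1 - ε)` times the largest part. -/
theorem result (b : ℕ) (hb : 5 ≤ b) : ∃ ε : ℝ, 0 < ε ∧ ∃ N : ℕ, ∀ lam : Fin b → ℕ,
    Antitone lam → (∀ i, 0 < lam i) → N ≤ lam ⟨0, by omega⟩ →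
      (1 - ε) * (lam ⟨0, by omega⟩ : ℝ) < (lam ⟨b - 1, by omega⟩ : ℝ) →
        Unimodal (coeffF lam) (∑ i, lam i) := by
  obtain ⟨ε, hε, N, h⟩ := Pool.Q141.UF.main_aux b hb
  refine ⟨ε, hε, N, fun lam hlam _ hN hcond => ?_⟩
  obtain ⟨t, ht1, ht2⟩ := h lam hlam ⟨0, by omega⟩ ⟨b - 1, by omega⟩ rfl
    (by show b - 1 + 1 = b; omega) hN hcond
  refine ⟨min t (∑ i, lam i), min_le_right _ _, fun m hm => ?_, fun m hm hM => ?_⟩
  · exact ht1 m (lt_of_lt_of_le hm (min_le_left _ _))
  · apply ht2 m
    rcases min_choice t (∑ i, lam i) with h' | h' <;> omega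

end Pool.Agent.Results.MP_71be06_co.NearRectangular
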